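import Pool.Agent.U397.TM.FR

set_option autoImplicit false

/-! # The motivic monodromy conjecture for forms over products of generic matrices

Let `n_0 ≤ n_1 ≤ ⋯` be positive integers, `A_i`, `i < L`, generic matrices of the sizes
`n_i × n_{i+1}` (all entries are different variables, `Var n L`), and for `t < T` let `ℓ_t < L` and
`F_t = ∑_{r,c} y_{t,r,c} (A_0 A_1 ⋯ A_{ℓ_t})_{r,c}`, with further variables `y_{t,r,c}`, separate for
each `t`. Let `f = ∏ t, F_t ^ a_t`, `a_t ≥ 1` (`form`, with integral coefficients). For `T = 1`, `a = 1`, `ℓ = L - 1` this is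
`tr (Y A_0 A_1 ⋯ A_{L-1})`, `Y` a generic `n_L × n_0` matrix: the trace of a product of generic
matrices.

The motivic zeta function `∑_{d ≥ 0} [𝒳_{d,1}] 𝕃 ^ (-m d) T ^ d` of `f` over a field `k` of characteristic
zero, `m` the number of the variables, `𝒳_{d,1}` the set of the `d`-jets `φ` with
`f(φ) = t ^ d mod t ^ (d + 1)` (`zetaM f Set.univ {1}`), is defined in the Grothendieck ring of the
`k`-varieties, localised at `𝕃`. No resolution is used. The jets are divided by the orders of the ideals of the entries of the
products; their recursion (`Tw3`, `t_ST3`, `t_ME`) uses as state the levels of the rows (the row `ρ` of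
the first factor which does not yet have a unit) and the columns which are left; only the entries
of the rows at their levels (heads) are divided by `t`; if a head is a unit, a shear which depends
also on entries of the next matrix moves its row to the next level. This gives the denominators
`1 - 𝕃 ^ (-ν(c)) T ^ N(c)`, where `c` runs over the chains `n_0 = c_0 ≥ c_1 ≥ ⋯ ≥ c_L` of possible ranks `c_{i+1}` of `A_0 ⋯ A_i` with some
`c_{ℓ_t+1} = 0`, `ν(c) = ∑_i (c_i - c_{i+1}) (n_{i+1} - c_{i+1})` is the codimension of the stratum and `N(c)` the sum of the `a_t` with `c_{ℓ_t+1} = 0`. The linear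
conditions on the jets of the `y` give the denominators `1 - 𝕃 ^ (-1) T ^ (a_t)`.

The proof for the roots: a functional equation of `f` gives a functional equation of the product of
the powers `I_t ^ a_t` of the ideals `I_t` of the entries of `A_0 ⋯ A_{ℓ_t}`, with the same `b`; near a
general point of the stratum of `c` the ideal `I_t` is the ideal of the stratum, which is smooth, or
the unit ideal (`t_RO`), and the blow-up of the stratum gives `b(-ν(c) / N(c)) = 0`. The roots
`-1 / a_t` come from the strict transforms. -/

namespace Pool.Agent.Results.MP_432c1b_ag.MatrixProductForms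

open MvPolynomial Pool.Agent.H628R4.TP Pool.Agent.TH192.DT Pool.Agent.TH192.MT
  Pool.Agent.W428.MOT Pool.Agent.U397.TM

/-- **The motivic monodromy conjecture for `f = ∏ t, F_t ^ a t`**, `F_t` the form with the entries of the
product `A_0 ⋯ A_{ℓ t}` of generic matrices as coefficients. The finite set `formPr n L ℓ a` of the pairs
`(-ν(c), N(c))` and `(-1, a t)` has the two properties: for the pairs `(q₁, q₂)` in it, `q₁ < 0 < q₂` and
`q₁ / q₂` is a root of every `b` with `b(s) f ^ s = P(s) f ^ (s + 1)`, `P(s)` in the Weyl algebra, in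
particular of the Bernstein-Sato polynomial of `f` (by the theorem of Malgrange and Kashiwara,
`exp(2 π i q₁ / q₂)` is a monodromy eigenvalue of `f` at a point of `f = 0`); and for every field `k`
of characteristic zero, in particular for the subfields of `ℂ`, the motivic zeta function of `f` over
`k` lies in the ring generated by `T` and the `1 / (1 - 𝕃 ^ q₁ T ^ q₂)`. -/
theorem result (n : ℕ → ℕ) (L T : ℕ) (ℓ a : Fin T → ℕ) (h0 : 0 < n 0) (hn : Monotone n)
    (hℓ : ∀ t, ℓ t < L) (ha : ∀ t, 0 < a t) :
    (∀ q ∈ formPr n L ℓ a, q.1 < 0 ∧ 0 < q.2 ∧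
      ∀ b : Polynomial ℂ, IsBFunction (map (Int.castRingHom ℂ) (form n L ℓ a)) b →
        b.eval ((q.1 : ℂ) / q.2) = 0) ∧
    ∀ (k : Type) [Field k] [CharZero k],
      zetaM (map (Int.castRingHom k) (form n L ℓ a)) Set.univ {1} ∈
        ratRing k (formPr n L ℓ a : Set (ℤ × ℤ)) :=
  ⟨fun q hq => ⟨(t_FR n L T ℓ a h0 hn hℓ ha q hq).1, (t_FR n L T ℓ a h0 hn hℓ ha q hq).2.1,
    (t_FR n L T ℓ a h0 hn hℓ ha q hq).2.2.1⟩,
    fun k _ _ => t_FM k n L T ℓ a hℓ ha Set.univ Constr.univ {1} good_one⟩

end Pool.Agent.Results.MP_432c1b_ag.MatrixProductForms
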