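import Pool.Agent.U841.SN.Top2

set_option autoImplicit false

/-! # The motivic monodromy conjecture for hypersurfaces whose tangent cones have normal crossings

Let `f t`, `t ∈ T`, be finitely many polynomials in `n ≥ 2` variables such that at every point `p ∈ ℂ ^ n` the
tangent cones of those hypersurfaces `f t = 0` which contain `p` are smooth away from the vertex and
cross normally there (`ConesCrossAt f p`). The `f t` may be reducible, and the singularities of the
products of their powers are in general neither isolated nor reduced nor homogeneous. Examples: the
cones over the normal crossing divisors of `ℙ^(n-1)` and all perturbations of their equations by terms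
of higher order, with all multiplicities; hypersurfaces with ordinary multiple points.

Let `S` be the set of the points at which the hypersurfaces `f t = 0` do not cross normally
(`CrossAt`); it is finite. The blow-up of the points of `S` is an embedded resolution. The
components are the exceptional divisors over the points `p ∈ S`, with `ν = n`, and the strict
transforms of the hypersurfaces `f t = 0`, with `ν = 1`.

Let `a t ≥ 1` be arbitrary exponents and `F = ∏ t, f t ^ a t`. The multiplicities `N` of `F` are the
multiplicity of `F` at `p` along the exceptional divisor over `p`, and `a t` along the strict transform of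
`f t = 0`. If the coefficients are in a subfield `k` of `ℂ`, some of these components may be unions of
conjugate components, or a union of several irreducible components; therefore the theorem allows a
finite set `I` of components with a map `κ` to the set of the components above which gives their
numbers `ν` and `N`. The motivic zeta function of `F` is of the form of the formula of Denef and Loeser
`∑_J c_J ∏_{i ∈ J} 𝕃^(-ν_i) T^(N_i) / (1 - 𝕃^(-ν_i) T^(N_i))` (`dlZ`), where the sum is over the sets `J` of
components, and `c_J` is `(𝕃 - 1)^(|J| - 1)` times the class of a covering of the stratum of `J`.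

The roots are in the library `Pool/Agent/U841/SN` (helper841): `pt_exc` says that `-n/d` is a root of the
local Bernstein-Sato polynomial of `∏ t, f t ^ a t` at `p`, where `d` is its multiplicity at `p`, if the
hypersurfaces do not cross normally at `p`, for all exponents `a t ≥ 1`. See the files
`NormalCrossingTangentCones` of MP_504089_ag and MP_b07157_ag. This file draws the consequences for
the zeta functions of this problem. -/

namespace Pool.Agent.Results.MP_432c1b_ag.NormalCrossingTangentCones

open MvPolynomial Pool.Agent.H628R4.TP Pool.Agent.TH192.DT Pool.Agent.U841.SN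

/-- **The motivic monodromy conjecture (with roots of the Bernstein-Sato polynomial) for products of
powers of polynomials whose tangent cones have normal crossings.** Let `k` be a field with an embedding
in `ℂ`, and let the polynomials `f t` have coefficients in `k`. There is a finite set `𝒮` of pairs
`q₁ < 0 < q₂` for which `q₁ / q₂` is a root of every `b` with `b(s) F ^ s = P(s) F ^ (s + 1)` (`P(s)` in the
Weyl algebra; for example `b = b_F`), such that every series `Z` of the form of the formula of Denef
and Loeser on the blow-up of the points of `S`, with coefficients `c J` in a commutative ring `R` with a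
unit `u` (`R = 𝓜_k`, `u = 𝕃`), lies in the ring generated over `R` by `T` and the
`1 / (1 - u ^ q₁ T ^ q₂)`, `q ∈ 𝒮`. -/
theorem result (k : Type) [Field k] [Algebra k ℂ] {n : ℕ} {T : Type} [Fintype T] (hn : 2 ≤ n)
    (f : T → MvPolynomial (Fin n) k) (hu : ∀ t, ¬ IsUnit (map (algebraMap k ℂ) (f t)))
    (hcone : ∀ p, ConesCrossAt (fun t => map (algebraMap k ℂ) (f t)) p)
    (S : Finset (Fin n → ℂ))
    (hS : ∀ p, p ∈ S ↔ ¬ CrossAt (fun t => map (algebraMap k ℂ) (f t)) p)
    (a : T → ℕ) (ha : ∀ t, 0 < a t) :
    ∃ 𝒮 : Finset (ℤ × ℤ),
      (∀ q ∈ 𝒮, q.1 < 0 ∧ 0 < q.2 ∧ ∀ b : Polynomial ℂ,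
        IsBFunction (map (algebraMap k ℂ) (∏ t, f t ^ a t)) b → b.eval ((q.1 : ℂ) / q.2) = 0) ∧
      ∀ (I : Type) [Fintype I] (κ : I → S ⊕ T) (R : Type) [CommRing R] (u : Rˣ)
        (c : Finset {i // 0 < (mulS S (fun t => map (algebraMap k ℂ) (f t)) a ∘ κ) i} → R),
        dlZ u (nuS n S T ∘ κ) (mulS S (fun t => map (algebraMap k ℂ) (f t)) a ∘ κ) c ∈
          ratU u (𝒮 : Set (ℤ × ℤ)) :=
  ⟨pairs (nuS n S T) (mulS S (fun t => map (algebraMap k ℂ) (f t)) a),
    pairs_good2 k hn f hcone hu S (fun p hp => (hS p).1 hp) a ha,
    fun _ _ κ _ _ u c => dlZ_pull κ _ _ u c⟩

end Pool.Agent.Results.MP_432c1b_ag.NormalCrossingTangentCones
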