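import Pool.Agent.U184.Ang5

set_option autoImplicit false

/-! # The motivic monodromy conjecture for homogeneous polynomials in three variables with weighted
homogeneous singularities

Let `f` be a homogeneous polynomial of degree `d > 0` in three variables, which may be reducible and
non-reduced. The candidate poles of its zeta function come from the divisors over the points of
the plane projective curve `f = 0`, and from the exceptional divisor `P²` of the blow-up of the
origin, which gives the candidate `-3/d`. This file treats all poles other than `-3/d`, and also `-3/d`, if

* the curve `f = 0` has only weighted homogeneous singularities: at each singular point of the reduced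
  curve, `f` is, in suitable formal coordinates, a weighted homogeneous polynomial (`WHForm`). For
  instance `f = ∏ f_i ^ (m_i)` with arbitrary multiplicities `m_i`, where the reduced curve
  `∏ f_i = 0` has only simple singularities, ordinary multiple points of multiplicity at most 4,
  or other quasi-homogeneous singularities; and
* there is no linear vector field `v` of trace zero with `v(f) = f` (`NoField`). If there is one, then `f`
  is semi-invariant, with a nontrivial character, for a one-dimensional torus in `SL₃`: after a
  linear change of coordinates, the exponents of the monomials of `f` lie on a line which does not
  contain `(d/3, d/3, d/3)` (for example `f = x^a y^b z^c` or `f = x^5 + y^4 z`). For these `f`, `-3/d` is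
  in general not a root of the Bernstein-Sato polynomial. It should not be a pole either, but this
  is not proved here.

The main point is the following: if `b(-3/d) ≠ 0` and the singularities are weighted homogeneous, then
there is such a vector field `v` (`core` in `Pool.Agent.U184.Core`). The functional equation shows
that on the complement of the curve the twisted form `f ^ (-3/d) (x dy dz - y dx dz + z dx dy)` is
the differential of a form with poles of some order along the curve. The order of the poles is
lowered step by step. Locally at a weighted homogeneous singularity this is a computation with the
Euler vector field; the functional equation at the points of the curve is used in order to treat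
the degrees in which the twisted Euler field has no inverse; the global step uses the exactness of
the Koszul complex of `x, y, z`. At the end there is a form with poles of order one, which is given
by a linear vector field `v` with `v(f) = f` and trace zero.

The motivic zeta function `∑_{m ≥ 0} [X_{m,1}] L^(-3 m) T^m` is the one with angular component `1`: if
the divisors `E_i`, `i ∈ I`, pass through a point, then the class of the set of the `(a_i)` with
`c ∏ a_i ^ (N_i) = 1` depends on the greatest common divisor of the `N_i` (and on `c`). The other poles are treated with `ang_main` (in `Pool.Agent.U184.Ang3`): if `b(s₀) ≠ 0`, and `E` is an
exceptional curve of the resolution with `N_E s₀ + ν_E = 0`, then at most two other components meet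
`E`, and the sum of the contributions of the strata of `E` has no pole at `s₀`, because the greatest
common divisors which occur in it are equal. Finally all bad denominators are removed at the same
time over a universal ring, a polynomial ring over `ℤ[L, L⁻¹]` (`point_ang`).
-/

namespace Pool.Agent.Results.MP_432c1b_ag.TernaryForms

open MvPolynomial Pool.Agent.U184 Pool.Agent.W574.MO Pool.Agent.H628R4.TP

/-- `Z` is (of the form of) the motivic zeta function `∑_{m ≥ 0} [X_{m,1}] L^(-3 m) T^m` of a
homogeneous polynomial `f` of degree `d` in three variables: `Z = u + Z'`, where `u` is the class
`[X_{0,1}]` of the affine surface `f = 1`, and `Z'` is the sum over `m ≥ 1`, see `SpaceAng`. -/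
def JetZeta {M : Type} [CommRing M] (L : Mˣ) (f : MvPolynomial (Fin 3) ℂ) (d : ℕ)
    (Z : PowerSeries M) : Prop :=
  ∃ (u : M) (Z' : PowerSeries M), SpaceAng L f d Z' ∧ Z = PowerSeries.C u + Z'

/-- **The motivic monodromy conjecture for forms in three variables with weighted homogeneous
singularities.** `M` is a commutative ring with a unit `L`, for example `M = K₀(Var_k)[1/L]`. Let
`f` be a homogeneous polynomial of degree `d` in three variables, and let `b` be a polynomial
which satisfies a functional equation `b(s) f ^ s = P(s) f ^ (s + 1)` (in particular the
Bernstein-Sato polynomial of `f`). Then the motivic zeta function `Z` of `f` (`JetZeta`) lies in the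
ring `M[T][(1 - L⁻ⁿ Tᵃ)⁻¹]`, where the pairs `a, n ≥ 1` are such that `-n/a` is a root of `b`, or
`-n/a = -3/d`; the latter only if the plane curve `f = 0` has a singularity which is not weighted
homogeneous, or if there is a linear vector field `v` of trace zero with `v(f) = f` (`TernPair`). -/
theorem result {M : Type} [CommRing M] (L : Mˣ) (f : MvPolynomial (Fin 3) ℂ) (d : ℕ)
    (hf : f.IsHomogeneous d) (b : Polynomial ℂ) (hb : IsBFunction f b)
    (Z : PowerSeries M) (hZ : JetZeta L f d Z) : Z ∈ DenRing L (TernPair f d b) := by
  obtain ⟨u, Z', hZ', rfl⟩ := hZ
  exact Subring.add_mem _ (C_mem _) (spaceAng_tern f d hf b hb Z' hZ')

end Pool.Agent.Results.MP_432c1b_ag.TernaryForms
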